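import Pool.Agent.H76.MXT.Stmts

set_option autoImplicit false

namespace Pool.MXT

open Set

theorem hom_thm (h1 : S_RCT) : S_HOM := by
  intro H a b c d hab hcd hH hNZ
  have h01 : (0 : ℝ) ≤ 1 := zero_le_one
  have haI : a ∈ Icc a b := ⟨le_refl _, hab⟩
  have hbI : b ∈ Icc a b := ⟨hab, le_refl _⟩
  have hcI : c ∈ Icc c d := ⟨le_refl _, hcd⟩
  have hdI : d ∈ Icc c d := ⟨hcd, le_refl _⟩
  have conX : ∀ y ∈ Icc c d, Con (fun r x => H r x y) 0 1 a b := by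
    intro y hy
    have hf : Continuous (fun p : ℝ × ℝ => ((p.1, p.2, y) : ℝ × ℝ × ℝ)) := by fun_prop
    have : MapsTo (fun p : ℝ × ℝ => ((p.1, p.2, y) : ℝ × ℝ × ℝ)) (Icc (0:ℝ) 1 ×ˢ Icc a b)
        (Icc 0 1 ×ˢ (Icc a b ×ˢ Icc c d)) := by
      intro p hp
      exact ⟨hp.1, hp.2, hy⟩
    exact hH.comp hf.continuousOn this
  have conY : ∀ x ∈ Icc a b, Con (fun r y => H r x y) 0 1 c d := by
    intro x hx
    have hf : Continuous (fun p : ℝ × ℝ => ((p.1, x, p.2) : ℝ × ℝ × ℝ)) := by fun_prop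
    have : MapsTo (fun p : ℝ × ℝ => ((p.1, x, p.2) : ℝ × ℝ × ℝ)) (Icc (0:ℝ) 1 ×ˢ Icc c d)
        (Icc 0 1 ×ˢ (Icc a b ×ˢ Icc c d)) := by
      intro p hp
      exact ⟨hp.1, hx, hp.2⟩
    exact hH.comp hf.continuousOn this
  have e1 := h1 (fun r x => H r x c) 0 1 a b h01 hab (conX c hcI)
    (fun r hr x hx => ((hNZ r hr).1 x hx).1)
  have e2 := h1 (fun r x => H r x d) 0 1 a b h01 hab (conX d hdI)
    (fun r hr x hx => ((hNZ r hr).1 x hx).2)
  have e3 := h1 (fun r y => H r b y) 0 1 c d h01 hcd (conY b hbI)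
    (fun r hr y hy => ((hNZ r hr).2 y hy).2)
  have e4 := h1 (fun r y => H r a y) 0 1 c d h01 hcd (conY a haI)
    (fun r hr y hy => ((hNZ r hr).2 y hy).1)
  unfold wnd at *
  beta_reduce at *
  linarith

end Pool.MXT
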